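import Pool.Agent.W564.SC.Defs
import Pool.Agent.H922R3.CL.Hyp

/-!
# Hyperbolic automorphisms of tori have periodic shadowing and are chain mixing
-/

set_option autoImplicit false
set_option linter.unusedSectionVars false

open Filter Set Metric
open scoped Topology

namespace Pool.Agent.W216.SC

open Pool.Agent.W564.SC Pool.Agent.H922R3.CL

section
variable {W : Type} [NormedAddCommGroup W] [NormedSpace ℝ W]
  (Λ : AddSubgroup W) [IsClosed (Λ : Set W)]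

theorem dist_mk_le (a b : W) : dist (QuotientAddGroup.mk a : W ⧸ Λ) (QuotientAddGroup.mk b) ≤
    ‖a - b‖ := by
  rw [dist_eq_norm, ← QuotientAddGroup.mk_sub]
  exact QuotientAddGroup.norm_mk_le_norm

theorem exists_lift {x : W} {y : W ⧸ Λ} {δ : ℝ}
    (h : dist (QuotientAddGroup.mk x : W ⧸ Λ) y < δ) :
    ∃ b : W, (QuotientAddGroup.mk b : W ⧸ Λ) = y ∧ ‖x - b‖ < δ := by
  rw [dist_eq_norm, QuotientAddGroup.norm_lt_iff] at h
  obtain ⟨v, hv, hv2⟩ := h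
  refine ⟨x - v, ?_, by rwa [sub_sub_cancel]⟩
  rw [QuotientAddGroup.mk_sub]
  have : (QuotientAddGroup.mk v : W ⧸ Λ) = QuotientAddGroup.mk x - y := hv
  rw [this, sub_sub_cancel]

theorem lift_chain (L : W → W) (δ : ℝ) (w : ℕ → W ⧸ Λ) (h : W ⧸ Λ → W ⧸ Λ)
    (hL : ∀ z : W, h (QuotientAddGroup.mk z) = QuotientAddGroup.mk (L z)) (m : ℕ)
    (hw : ∀ i < m, dist (h (w i)) (w (i + 1)) < δ) :
    ∀ n ≤ m, ∃ a : ℕ → W, (∀ i ≤ n, (QuotientAddGroup.mk (a i) : W ⧸ Λ) = w i) ∧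
      ∀ i < n, ‖L (a i) - a (i + 1)‖ < δ := by
  intro n
  induction n with
  | zero =>
    intro _
    obtain ⟨b, hb⟩ := QuotientAddGroup.mk_surjective (w 0)
    exact ⟨fun _ => b, fun i hi => by rw [Nat.le_zero.1 hi]; exact hb,
      fun i hi => absurd hi (Nat.not_lt_zero _)⟩
  | succ n ih =>
    intro hn
    obtain ⟨a, ha1, ha2⟩ := ih (by omega)
    have h1 := hw n (by omega)
    rw [← ha1 n le_rfl, hL] at h1
    obtain ⟨b, hb1, hb2⟩ := exists_lift Λ h1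
    refine ⟨fun i => if i = n + 1 then b else a i, fun i hi => ?_, fun i hi => ?_⟩
    · simp only
      by_cases h : i = n + 1
      · rw [if_pos h, h]; exact hb1
      · rw [if_neg h]; exact ha1 i (by omega)
    · simp only
      by_cases h : i = n
      · subst h
        rw [if_neg (show ¬ i = i + 1 by omega), if_pos rfl]; exact hb2
      · rw [if_neg (show ¬ i = n + 1 by omega), if_neg (show ¬ i + 1 = n + 1 by omega)]
        exact ha2 i (by omega)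

theorem iter_mk (L : W → W) (h : W ⧸ Λ → W ⧸ Λ)
    (hL : ∀ z : W, h (QuotientAddGroup.mk z) = QuotientAddGroup.mk (L z)) (n : ℕ) (z : W) :
    h^[n] (QuotientAddGroup.mk z) = QuotientAddGroup.mk (L^[n] z) := by
  induction n with
  | zero => rfl
  | succ n ih => rw [Function.iterate_succ_apply', ih, hL, Function.iterate_succ_apply']

theorem perShadow [CompleteSpace W] (L : W ≃L[ℝ] W) (hyp : IsHypLin L)
    (h : (W ⧸ Λ) ≃ₜ (W ⧸ Λ))
    (hL : ∀ z : W, h (QuotientAddGroup.mk z) = QuotientAddGroup.mk (L z)) :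
    Pool.Agent.W564.SC.PerShadow h := by
  obtain ⟨K, hK, hsh⟩ := shadow_lin hyp
  intro η hη
  refine ⟨η / (2 * K), by positivity, fun m w hm hw0 hw => ?_⟩
  obtain ⟨a, ha1, ha2⟩ := lift_chain Λ L (η / (2 * K)) w h hL m hw m le_rfl
  obtain ⟨p, hp1, hp2⟩ := hsh (η / (2 * K)) m a hm (fun j hj => (ha2 j hj).le)
  have hK2 : K * (η / (2 * K)) = η / 2 := by field_simp
  rw [hK2] at hp2
  refine ⟨QuotientAddGroup.mk p, ?_, fun i hi => ?_⟩
  · rw [iter_mk Λ L h hL, hp1, QuotientAddGroup.mk_add, QuotientAddGroup.mk_sub, ha1 m le_rfl,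
      ha1 0 (Nat.zero_le _), hw0, sub_self, add_zero]
  · rw [iter_mk Λ L h hL, ← ha1 i hi.le]
    refine (dist_mk_le Λ _ _).trans_lt ((hp2 i hi.le).trans_lt (by linarith))

end

section
variable {W : Type} [NormedAddCommGroup W] [NormedSpace ℝ W] [FiniteDimensional ℝ W]
  (Λ : AddSubgroup W) [DiscreteTopology Λ] [IsClosed (Λ : Set W)]

theorem compact_quot (hΛ : ∃ C : ℝ, ∀ z : W, ∃ u ∈ Λ, ‖z - u‖ ≤ C) : CompactSpace (W ⧸ Λ) := by
  haveI : ProperSpace W := FiniteDimensional.proper ℝ W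
  obtain ⟨C, hC⟩ := hΛ
  refine ⟨?_⟩
  have h1 : IsCompact ((fun z : W => (QuotientAddGroup.mk z : W ⧸ Λ)) '' closedBall 0 C) :=
    (isCompact_closedBall 0 C).image QuotientAddGroup.continuous_mk
  have h2 : (fun z : W => (QuotientAddGroup.mk z : W ⧸ Λ)) '' closedBall 0 C = univ := by
    rw [eq_univ_iff_forall]
    intro x
    obtain ⟨z, rfl⟩ := QuotientAddGroup.mk_surjective x
    obtain ⟨u, hu, hzu⟩ := hC z
    refine ⟨z - u, by rw [mem_closedBall_zero_iff]; exact hzu, ?_⟩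
    show (QuotientAddGroup.mk (z - u) : W ⧸ Λ) = QuotientAddGroup.mk z
    rw [QuotientAddGroup.mk_sub, (QuotientAddGroup.eq_zero_iff u).2 hu, sub_zero]
  rwa [h2] at h1

theorem preconnected_quot : PreconnectedSpace (W ⧸ Λ) := by
  refine ⟨?_⟩
  have h1 : IsPreconnected ((fun z : W => (QuotientAddGroup.mk z : W ⧸ Λ)) '' univ) :=
    isPreconnected_univ.image _ QuotientAddGroup.continuous_mk.continuousOn
  rwa [image_univ, (QuotientAddGroup.mk_surjective (s := Λ)).range_eq] at h1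

/-- the points of order dividing `n` -/
def PN (n : ℕ) : Set (W ⧸ Λ) := {x | ∃ u ∈ Λ, x = QuotientAddGroup.mk ((1 / (n : ℝ)) • u)}

theorem PN_finite (hΛ : ∃ C : ℝ, ∀ z : W, ∃ u ∈ Λ, ‖z - u‖ ≤ C) {n : ℕ} (hn : 1 ≤ n) :
    (PN Λ n).Finite := by
  haveI : ProperSpace W := FiniteDimensional.proper ℝ W
  obtain ⟨C, hC⟩ := hΛ
  have hn0 : (0 : ℝ) < n := by exact_mod_cast hn
  have hfin : (closedBall (0 : W) (n * C) ∩ (Λ : Set W)).Finite :=
    Metric.finite_isBounded_inter_isClosed (isDiscrete_iff_discreteTopology.2 inferInstance)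
      isBounded_closedBall inferInstance
  refine (hfin.image fun u => (QuotientAddGroup.mk ((1 / (n : ℝ)) • u) : W ⧸ Λ)).subset ?_
  rintro x ⟨u, hu, rfl⟩
  obtain ⟨v, hv, huv⟩ := hC ((1 / (n : ℝ)) • u)
  have hnv : (n : ℝ) • v ∈ Λ := by
    rw [Nat.cast_smul_eq_nsmul]
    exact Λ.nsmul_mem hv n
  refine ⟨u - (n : ℝ) • v, ⟨?_, Λ.sub_mem hu hnv⟩, ?_⟩
  · rw [mem_closedBall_zero_iff]
    have h1 : u - (n : ℝ) • v = (n : ℝ) • ((1 / (n : ℝ)) • u - v) := by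
      rw [smul_sub, smul_smul, mul_one_div_cancel hn0.ne', one_smul]
    rw [h1, norm_smul, Real.norm_natCast]
    exact mul_le_mul_of_nonneg_left huv hn0.le
  · show (QuotientAddGroup.mk ((1 / (n : ℝ)) • (u - (n : ℝ) • v)) : W ⧸ Λ) =
      QuotientAddGroup.mk ((1 / (n : ℝ)) • u)
    rw [smul_sub, smul_smul, one_div_mul_cancel hn0.ne', one_smul, QuotientAddGroup.mk_sub,
      (QuotientAddGroup.eq_zero_iff v).2 hv, sub_zero]

theorem per_of_PN (hΛ : ∃ C : ℝ, ∀ z : W, ∃ u ∈ Λ, ‖z - u‖ ≤ C) (L : W ≃L[ℝ] W)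
    (hΛL : ∀ u, u ∈ Λ ↔ L u ∈ Λ) (h : (W ⧸ Λ) ≃ₜ (W ⧸ Λ))
    (hL : ∀ z : W, h (QuotientAddGroup.mk z) = QuotientAddGroup.mk (L z)) {n : ℕ} (hn : 1 ≤ n)
    {x : W ⧸ Λ} (hx : x ∈ PN Λ n) : ∃ m : ℕ, 1 ≤ m ∧ h^[m] x = x := by
  have hmaps : MapsTo h (PN Λ n) (PN Λ n) := by
    rintro x ⟨u, hu, rfl⟩
    refine ⟨L u, (hΛL u).1 hu, ?_⟩
    rw [hL, map_smul]
  haveI : Finite (PN Λ n) := (PN_finite Λ hΛ hn).to_subtype
  have hinj : Function.Injective (hmaps.restrict h (PN Λ n) (PN Λ n)) :=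
    (hmaps.restrict_inj).2 h.injective.injOn
  have hp := hinj.mem_periodicPts ⟨x, hx⟩
  rw [Function.mem_periodicPts] at hp
  obtain ⟨m, hm, hm2⟩ := hp
  refine ⟨m, hm, ?_⟩
  have h2 := congrArg Subtype.val hm2
  rw [MapsTo.iterate_restrict] at h2
  exact h2

theorem dense_per (hΛ : ∃ C : ℝ, ∀ z : W, ∃ u ∈ Λ, ‖z - u‖ ≤ C) (L : W ≃L[ℝ] W)
    (hΛL : ∀ u, u ∈ Λ ↔ L u ∈ Λ) (h : (W ⧸ Λ) ≃ₜ (W ⧸ Λ))
    (hL : ∀ z : W, h (QuotientAddGroup.mk z) = QuotientAddGroup.mk (L z)) :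
    Dense {p : W ⧸ Λ | ∃ m : ℕ, 1 ≤ m ∧ h^[m] p = p} := by
  rw [Metric.dense_iff]
  intro x ε hε
  obtain ⟨z, rfl⟩ := QuotientAddGroup.mk_surjective x
  obtain ⟨C, hC⟩ := id hΛ
  obtain ⟨n, hn⟩ := exists_nat_gt (|C| / ε)
  have hn1 : 1 ≤ n := by
    rcases Nat.eq_zero_or_pos n with h0 | h0
    · rw [h0, Nat.cast_zero] at hn
      have : 0 ≤ |C| / ε := by positivity
      linarith
    · exact h0
  have hn0 : (0 : ℝ) < n := by exact_mod_cast hn1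
  obtain ⟨u, hu, hzu⟩ := hC ((n : ℝ) • z)
  refine ⟨QuotientAddGroup.mk ((1 / (n : ℝ)) • u), ?_,
    per_of_PN Λ hΛ L hΛL h hL hn1 ⟨u, hu, rfl⟩⟩
  rw [mem_ball, dist_comm]
  refine (dist_mk_le Λ _ _).trans_lt ?_
  have h1 : z - (1 / (n : ℝ)) • u = (1 / (n : ℝ)) • ((n : ℝ) • z - u) := by
    rw [smul_sub, smul_smul, one_div_mul_cancel hn0.ne', one_smul]
  rw [h1, norm_smul, Real.norm_of_nonneg (by positivity)]
  have h2 : |C| < n * ε := by rwa [div_lt_iff₀ hε] at hn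
  have h3 : ‖(n : ℝ) • z - u‖ ≤ |C| := hzu.trans (le_abs_self C)
  rw [one_div, inv_mul_lt_iff₀ hn0]
  exact h3.trans_lt h2

end

theorem ex2 (h : S_EX1.{0}) : S_EX2 := by
  intro W _ _ _ Λ _ _ hΛ L hyp hΛL g hL
  haveI : CompleteSpace W := FiniteDimensional.complete ℝ W
  refine ⟨perShadow Λ L hyp g hL, ?_⟩
  haveI := compact_quot Λ hΛ
  haveI := preconnected_quot Λ
  exact h (W ⧸ Λ) g (dense_per Λ hΛ L hΛL g hL)

end Pool.Agent.W216.SC
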